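import Mathlib
import Pool.Agent.GEN.StmtsZC

/-! # Squad GEN, module DEX: derivations with prescribed values in characteristic zero -/

set_option autoImplicit false

namespace Pool.Agent.GEN.H51

/-- a section of a surjection with square-zero kernel over a formally smooth algebra -/
theorem dex_lift {A F B : Type} [CommRing A] [CommRing F] [CommRing B] [Algebra A F]
    [Algebra.FormallySmooth A F] (φ : A →+* B) (π : B →+* F) (hπ : Function.Surjective π)
    (hker : ∀ x y, π x = 0 → π y = 0 → x * y = 0) (hc : ∀ a, π (φ a) = algebraMap A F a) :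
    ∃ s : F →+* B, (∀ x, π (s x) = x) ∧ ∀ a, s (algebraMap A F a) = φ a := by
  let : Algebra A B := φ.toAlgebra
  let g : B →ₐ[A] F := { π with commutes' := hc }
  have hg : Function.Surjective g := hπ
  have hnil : IsNilpotent (RingHom.ker (g : B →+* F)) := by
    refine ⟨2, ?_⟩
    rw [pow_two, Ideal.zero_eq_bot, eq_bot_iff, Ideal.mul_le]
    intro x hx y hy
    rw [Ideal.mem_bot]
    exact hker x y hx hy
  let s := Algebra.FormallySmooth.liftOfSurjective (AlgHom.id A F) g hg hnil
  refine ⟨s.toRingHom, ?_, ?_⟩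
  · intro x
    have h := Algebra.FormallySmooth.liftOfSurjective_apply (AlgHom.id A F) g hg hnil x
    exact h
  · intro a
    exact s.commutes a

open scoped IntermediateField.algebraAdjoinAdjoin in
/-- an extension of fields of characteristic zero is formally smooth over the algebra generated by
an algebraically independent family -/
theorem dex_smooth (F : Type) [Field F] [CharZero F] (ι : Type) (c : ι → F) :
    Algebra.FormallySmooth (Algebra.adjoin ℚ (Set.range c)) F := by
  have h1 : Algebra.FormallySmooth (Algebra.adjoin ℚ (Set.range c))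
      (IntermediateField.adjoin ℚ (Set.range c)) :=
    .of_isLocalization (nonZeroDivisors _)
  obtain ⟨s, hs⟩ := exists_isTranscendenceBasis (IntermediateField.adjoin ℚ (Set.range c)) F
  have h2 : Algebra.IsAlgebraic (IntermediateField.adjoin
      (IntermediateField.adjoin ℚ (Set.range c)) (Set.range ((↑) : s → F))) F :=
    hs.isAlgebraic_field
  have h3 : Algebra.FormallySmooth (IntermediateField.adjoin ℚ (Set.range c)) F :=
    .of_algebraicIndependent_of_isSeparable hs.1
  exact .comp _ (IntermediateField.adjoin ℚ (Set.range c)) _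

theorem dex : DexStmt := by
  intro F _ _ ι c hc i₀
  classical
  have := dex_smooth F ι c
  let v : ι → TrivSqZeroExt F F := fun i =>
    TrivSqZeroExt.inl (c i) + TrivSqZeroExt.inr (if i = i₀ then 1 else 0)
  let ψ : MvPolynomial ι ℚ →ₐ[ℚ] TrivSqZeroExt F F := MvPolynomial.aeval v
  let φ : Algebra.adjoin ℚ (Set.range c) →+* TrivSqZeroExt F F :=
    (ψ.comp hc.aevalEquiv.symm.toAlgHom).toRingHom
  let π : TrivSqZeroExt F F →ₐ[ℚ] F := TrivSqZeroExt.fstHom ℚ F F
  have hφ : ∀ p, φ (hc.aevalEquiv p) = ψ p := by
    intro p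
    change ψ (hc.aevalEquiv.symm (hc.aevalEquiv p)) = ψ p
    rw [AlgEquiv.symm_apply_apply]
  have hcomp : ∀ a, π (φ a) = algebraMap (Algebra.adjoin ℚ (Set.range c)) F a := by
    intro a
    obtain ⟨p, rfl⟩ := hc.aevalEquiv.surjective a
    rw [hφ, hc.algebraMap_aevalEquiv]
    have h1 : π.comp ψ = MvPolynomial.aeval c := by
      apply MvPolynomial.algHom_ext
      intro i
      have h2 : (ψ (MvPolynomial.X i)).fst = c i := by
        rw [show ψ (MvPolynomial.X i) = v i from MvPolynomial.aeval_X _ _]
        simp only [v, TrivSqZeroExt.fst_add, TrivSqZeroExt.fst_inl, TrivSqZeroExt.fst_inr,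
          add_zero]
      rw [MvPolynomial.aeval_X]
      exact h2
    rw [← h1]
    rfl
  obtain ⟨s, hs1, hs2⟩ := dex_lift φ π.toRingHom
    (fun x => ⟨TrivSqZeroExt.inl x, by simp [π]⟩)
    (fun x y hx hy => by
      have hx' : x.fst = 0 := hx
      have hy' : y.fst = 0 := hy
      ext
      · simp [hx']
      · simp [hx', hy'])
    hcomp
  have hfst : ∀ x, (s x).fst = x := hs1
  have hsnd : ∀ i, (s (c i)).snd = if i = i₀ then 1 else 0 := by
    intro i
    have h1 : c i = algebraMap (Algebra.adjoin ℚ (Set.range c)) F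
        (hc.aevalEquiv (MvPolynomial.X i)) := by
      rw [hc.algebraMap_aevalEquiv, MvPolynomial.aeval_X]
    rw [h1, hs2, hφ, show ψ (MvPolynomial.X i) = v i from MvPolynomial.aeval_X _ _]
    simp only [v, TrivSqZeroExt.snd_add, TrivSqZeroExt.snd_inl, TrivSqZeroExt.snd_inr, zero_add]
  refine ⟨fun x => (s x).snd, ?_, ?_, ?_, ?_⟩
  · intro a b
    simp
  · intro a b
    simp [hfst, mul_comm]
  · simp [hsnd]
  · intro i hi
    simp [hsnd, hi]

end Pool.Agent.GEN.H51
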