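import Mathlib
import Pool.Agent.GEN.StmtsZD

/-! # Squad GEN, module SWD: dimensions for a block -/

set_option autoImplicit false

namespace Pool.Agent.GEN.H51

open Finset

/-! ### linear algebra -/

section lin

variable {σ : Type} [Fintype σ]

/-- the vectors that vanish on `T` -/
def swdZ (T : Finset σ) : Submodule ℚ (σ → ℚ) :=
  LinearMap.ker (LinearMap.funLeft ℚ ℚ (Subtype.val : T → σ))

omit [Fintype σ] in
theorem swd_memZ (T : Finset σ) (v : σ → ℚ) : v ∈ swdZ T ↔ ∀ i ∈ T, v i = 0 := by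
  unfold swdZ
  rw [LinearMap.mem_ker]
  constructor
  · intro h i hi
    exact congrFun h ⟨i, hi⟩
  · intro h
    funext i
    exact h i.1 i.2

theorem swd_rank {W : Type} [AddCommGroup W] [Module ℚ W] [Module.Finite ℚ W]
    (f : (σ → ℚ) →ₗ[ℚ] W) (U : Submodule ℚ (σ → ℚ)) :
    Module.finrank ℚ U = Module.finrank ℚ (U.map f) +
      Module.finrank ℚ (U ⊓ LinearMap.ker f : Submodule ℚ (σ → ℚ)) := by
  have h := LinearMap.finrank_range_add_finrank_ker (f.domRestrict U)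
  rw [LinearMap.range_domRestrict, LinearMap.ker_domRestrict] at h
  have h2 : Module.finrank ℚ (Submodule.comap U.subtype (LinearMap.ker f)) =
      Module.finrank ℚ (U ⊓ LinearMap.ker f : Submodule ℚ (σ → ℚ)) := by
    rw [← Submodule.map_comap_subtype]
    exact (Submodule.finrank_map_subtype_eq _ _).symm
  rw [← h, ← h2]

theorem swd_A (U : Submodule ℚ (σ → ℚ)) (T T' : Finset σ) (hne : T'.Nonempty) (_hT : T' ⊆ T)
    (h : ∀ v ∈ U, (∀ i ∈ T, i ∉ T' → v i = 0) ∧ ∑ i ∈ T, v i = 0) :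
    Module.finrank ℚ U + 1 ≤ T'.card +
      Module.finrank ℚ (U ⊓ swdZ T : Submodule ℚ (σ → ℚ)) := by
  classical
  obtain ⟨t₀, ht₀⟩ := hne
  let f := LinearMap.funLeft ℚ ℚ (Subtype.val : {x // x ∈ T'.erase t₀} → σ)
  have h1 := swd_rank f U
  have h2 : Module.finrank ℚ (U.map f) ≤ T'.card - 1 := by
    refine (Submodule.finrank_le _).trans ?_
    rw [Module.finrank_fintype_fun_eq_card, Fintype.card_coe, card_erase_of_mem ht₀]
  have h3 : U ⊓ LinearMap.ker f ≤ U ⊓ swdZ T := by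
    intro v hv
    obtain ⟨hv1, hv2⟩ := hv
    refine ⟨hv1, (swd_memZ T v).2 ?_⟩
    have hv3 : ∀ i ∈ T'.erase t₀, v i = 0 := (swd_memZ _ v).1 hv2
    obtain ⟨a, b⟩ := h v hv1
    have hz : ∀ i ∈ T, i ≠ t₀ → v i = 0 := by
      intro i hi hne
      by_cases hi' : i ∈ T'
      · exact hv3 i (mem_erase.2 ⟨hne, hi'⟩)
      · exact a i hi hi'
    intro i hi
    by_cases hit : i = t₀
    · subst hit
      rw [Finset.sum_eq_single_of_mem i hi (fun j hj hji => hz j hj hji)] at b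
      exact b
    · exact hz i hi hit
  have h4 := Submodule.finrank_mono h3
  have h5 : 1 ≤ T'.card := card_pos.2 ⟨t₀, ht₀⟩
  omega

open scoped Classical in
theorem swd_B (U : Submodule ℚ (σ → ℚ)) (P : Finset σ) (p₀ : σ) (hp₀ : p₀ ∈ P)
    (h : ∀ p ∈ P, ∃ v ∈ U, ∀ i ∈ P,
      v i = (if i = p then (1 : ℚ) else 0) - (if i = p₀ then (1 : ℚ) else 0)) :
    P.card + Module.finrank ℚ (U ⊓ swdZ P : Submodule ℚ (σ → ℚ)) ≤ Module.finrank ℚ U + 1 := by
  let f := LinearMap.funLeft ℚ ℚ (Subtype.val : P → σ)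
  have h1 := swd_rank f U
  let e : P → ℚ := Pi.single ⟨p₀, hp₀⟩ 1
  have he : e ≠ 0 := by
    intro h0
    have := congrFun h0 ⟨p₀, hp₀⟩
    simp [e] at this
  have h2 : (⊤ : Submodule ℚ (P → ℚ)) ≤ U.map f ⊔ Submodule.span ℚ {e} := by
    rw [← (Pi.basisFun ℚ P).span_eq, Submodule.span_le]
    rintro _ ⟨p, rfl⟩
    obtain ⟨v, hv, hvi⟩ := h p.1 p.2
    have h3 : (Pi.basisFun ℚ P) p = f v + e := by
      funext i
      rw [Pi.basisFun_apply, Pi.add_apply]
      change (Pi.single p (1 : ℚ) : P → ℚ) i = v i.1 + (Pi.single ⟨p₀, hp₀⟩ (1 : ℚ) : P → ℚ) i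
      rw [hvi i.1 i.2, Pi.single_apply, Pi.single_apply]
      simp only [Subtype.ext_iff]
      ring
    rw [SetLike.mem_coe, h3]
    exact Submodule.add_mem_sup (Submodule.mem_map_of_mem hv) (Submodule.mem_span_singleton_self e)
  have h3 := Submodule.finrank_mono h2
  rw [finrank_top, Module.finrank_fintype_fun_eq_card, Fintype.card_coe] at h3
  have h4 := Submodule.finrank_add_le_finrank_add_finrank (U.map f) (Submodule.span ℚ {e})
  rw [finrank_span_singleton he] at h4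
  have h5 : (U ⊓ swdZ P : Submodule ℚ (σ → ℚ)) = U ⊓ LinearMap.ker f := rfl
  rw [h5]
  omega

end lin

/-! ### the space `VK` -/

section vk

variable {σ : Type}

theorem swd_VK {I' : Finset (σ →₀ ℕ)} {K T T' : Finset σ}
    (h : ∀ j ∈ K, ∀ α ∈ I', ∀ β ∈ I', α j = 1 → β j = 1 →
      (∀ i ∈ T, i ∉ T' → α i = β i) ∧ ∑ i ∈ T, α i = ∑ i ∈ T, β i) :
    ∀ v ∈ VK I' K, (∀ i ∈ T, i ∉ T' → v i = 0) ∧ ∑ i ∈ T, v i = 0 := by
  intro v hv
  unfold VK at hv
  induction hv using Submodule.span_induction with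
  | mem v hv =>
    obtain ⟨j, hj, α, hα, β, hβ, h1, h2, rfl⟩ := hv
    obtain ⟨a, b⟩ := h j hj α hα β hβ h1 h2
    refine ⟨fun i hi hi' => ?_, ?_⟩
    · simp [a i hi hi']
    · rw [Finset.sum_sub_distrib, ← Nat.cast_sum, ← Nat.cast_sum, b, sub_self]
  | zero => simp
  | add x y _ _ hx hy =>
    refine ⟨fun i hi hi' => ?_, ?_⟩
    · rw [Pi.add_apply, hx.1 i hi hi', hy.1 i hi hi', add_zero]
    · simp only [Pi.add_apply]
      rw [Finset.sum_add_distrib, hx.2, hy.2, add_zero]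
  | smul a x _ hx =>
    refine ⟨fun i hi hi' => ?_, ?_⟩
    · rw [Pi.smul_apply, hx.1 i hi hi', smul_zero]
    · simp only [Pi.smul_apply]
      rw [← Finset.smul_sum, hx.2, smul_zero]

theorem swd_mono {I I' : Finset (σ →₀ ℕ)} {K K' : Finset σ} (hI : I' ⊆ I) (hK : K' ⊆ K) :
    VK I' K' ≤ VK I K := by
  unfold VK
  apply Submodule.span_mono
  rintro v ⟨j, hj, α, hα, β, hβ, h⟩
  exact ⟨j, hK hj, α, hI hα, β, hI hβ, h⟩

theorem swd_one {T : Finset σ} {α : σ →₀ ℕ} (h : ∑ j ∈ T, α j = 1) : ∃ j ∈ T, α j = 1 := by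
  obtain ⟨j, hj, hj0⟩ := Finset.exists_ne_zero_of_sum_ne_zero (by rw [h]; exact one_ne_zero)
  have h2 : α j ≤ ∑ i ∈ T, α i := Finset.single_le_sum (fun i _ => Nat.zero_le (α i)) hj
  exact ⟨j, hj, by omega⟩

theorem swd_uniq {T : Finset σ} {α : σ →₀ ℕ} (h : ∑ j ∈ T, α j ≤ 1) {i j : σ} (hi : i ∈ T)
    (hj : j ∈ T) (hne : i ≠ j) (h1 : α j ≠ 0) : α i = 0 := by
  classical
  have hsub : ({i, j} : Finset σ) ⊆ T := by
    intro x hx
    rw [mem_insert, mem_singleton] at hx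
    rcases hx with rfl | rfl
    · exact hi
    · exact hj
  have h2 := Finset.sum_le_sum_of_subset (f := fun x => α x) hsub
  rw [Finset.sum_pair hne] at h2
  omega

theorem swd_val {T : Finset σ} {α : σ →₀ ℕ} (h : ∑ j ∈ T, α j = 1) {j : σ} (hj : j ∈ T)
    (h1 : α j ≠ 0) : α j = 1 := by
  have h2 : α j ≤ ∑ i ∈ T, α i := Finset.single_le_sum (fun i _ => Nat.zero_le (α i)) hj
  omega

/-- the configuration, symmetric in `A`, `B` -/
structure Cf (I : Finset (σ →₀ ℕ)) (S A B : Finset σ) : Prop where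
  SA : Disjoint S A
  s1 : ∀ α ∈ I, ∑ j ∈ S, α j ≤ 1
  s2 : ∀ α ∈ I, ∀ j ∈ S, α j ≠ 0 → ∀ i, i ∈ A ∨ i ∈ B → α i = 0
  so : ∀ j ∈ S, ∃ α ∈ I, α j = 1
  once : ∀ α ∈ I, (∑ j ∈ A, α j = 1 ∧ ∑ j ∈ B, α j = 1) ∨ ∀ j, j ∈ A ∨ j ∈ B → α j = 0
  oB : ∀ j ∈ B, ∃ α ∈ I, α j = 1

variable {I : Finset (σ →₀ ℕ)} {S A B : Finset σ}

theorem Cf.hit (c : Cf I S A B) {α : σ →₀ ℕ} (hα : α ∈ I) {j : σ} (hj : j ∈ A ∨ j ∈ B)
    (h : α j ≠ 0) : ∑ j ∈ A, α j = 1 ∧ ∑ j ∈ B, α j = 1 := by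
  rcases c.once α hα with h1 | h1
  · exact h1
  · exact absurd (h1 j hj) h

open scoped Classical in
/-- the neighbours in `A` of a subset of `B` -/
noncomputable def nb (I : Finset (σ →₀ ℕ)) (A B' : Finset σ) : Finset σ :=
  A.filter fun p => ∃ α ∈ I, α p = 1 ∧ ∃ q ∈ B', α q = 1

theorem mem_nb {I : Finset (σ →₀ ℕ)} {A B' : Finset σ} {p : σ} :
    p ∈ nb I A B' ↔ p ∈ A ∧ ∃ α ∈ I, α p = 1 ∧ ∃ q ∈ B', α q = 1 := by
  unfold nb
  exact mem_filter

theorem nb_sub {I : Finset (σ →₀ ℕ)} {A B' : Finset σ} : nb I A B' ⊆ A :=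
  fun _ hp => (mem_nb.1 hp).1

open scoped Classical in
theorem mem_keep' {I : Finset (σ →₀ ℕ)} {K K' : Finset σ} {α : σ →₀ ℕ} :
    α ∈ keep I K K' ↔ α ∈ I ∧ ∀ j ∈ K, j ∉ K' → α j = 0 := by
  unfold keep
  exact mem_filter

theorem Cf.nb_ne (c : Cf I S A B) {B' : Finset σ} (hB' : B' ⊆ B) (hne : B'.Nonempty) :
    (nb I A B').Nonempty := by
  obtain ⟨q, hq⟩ := hne
  obtain ⟨α, hα, h1⟩ := c.oB q (hB' hq)
  have hh := (c.hit hα (Or.inr (hB' hq)) (by omega)).1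
  obtain ⟨p, hp, hp1⟩ := swd_one hh
  exact ⟨p, mem_nb.2 ⟨hp, α, hα, hp1, q, hq, h1⟩⟩

open scoped Classical in
theorem Cf.stab (c : Cf I S A B) {B' : Finset σ} (hB' : B' ⊆ B) (hne : B'.Nonempty) :
    Stab (keep I B B') (S ∪ nb I A B') := by
  have hdis : Disjoint S (nb I A B') := Finset.disjoint_of_subset_right nb_sub c.SA
  refine ⟨?_, ?_, ?_⟩
  · obtain ⟨p, hp⟩ := c.nb_ne hB' hne
    exact ⟨p, mem_union_right _ hp⟩
  · intro α hα
    have hαI := (mem_keep'.1 hα).1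
    rw [sum_union hdis]
    rcases c.once α hαI with ⟨ha, hb⟩ | h0
    · have hS0 : ∑ j ∈ S, α j = 0 := by
        apply sum_eq_zero
        intro j hj
        by_contra hj0
        have h3 := c.s2 α hαI j hj hj0
        have h4 : ∑ j ∈ A, α j = 0 := sum_eq_zero (fun i hi => h3 i (Or.inl hi))
        omega
      have h5 : ∑ j ∈ nb I A B', α j ≤ ∑ j ∈ A, α j := sum_le_sum_of_subset nb_sub
      omega
    · have h5 : ∑ j ∈ nb I A B', α j = 0 := sum_eq_zero (fun j hj => h0 j (Or.inl (nb_sub hj)))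
      have h6 := c.s1 α hαI
      omega
  · intro j hj
    rcases mem_union.1 hj with hj | hj
    · obtain ⟨α, hα, h1⟩ := c.so j hj
      exact ⟨α, mem_keep'.2 ⟨hα, fun i hi _ => c.s2 α hα j hj (by omega) i (Or.inr hi)⟩, h1⟩
    · obtain ⟨hjA, α, hα, h1, q, hq, hq1⟩ := mem_nb.1 hj
      refine ⟨α, mem_keep'.2 ⟨hα, fun i hi hi' => ?_⟩, h1⟩
      have hb := (c.hit hα (Or.inl hjA) (by omega)).2
      refine swd_uniq hb.le hi (hB' hq) ?_ (by omega)
      rintro rfl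
      exact hi' hq

open scoped Classical in
theorem Cf.gen (c : Cf I S A B) (B' : Finset σ) :
    ∀ j ∈ S ∪ nb I A B', ∀ α ∈ keep I B B', ∀ β ∈ keep I B B', α j = 1 → β j = 1 →
      (∀ i ∈ B, i ∉ B' → α i = β i) ∧ ∑ i ∈ B, α i = ∑ i ∈ B, β i := by
  intro j hj α hα β hβ h1 h2
  obtain ⟨hαI, hα0⟩ := mem_keep'.1 hα
  obtain ⟨hβI, hβ0⟩ := mem_keep'.1 hβ
  refine ⟨fun i hi hi' => by rw [hα0 i hi hi', hβ0 i hi hi'], ?_⟩
  rcases mem_union.1 hj with hj | hj
  · rw [sum_eq_zero (fun i hi => c.s2 α hαI j hj (by omega) i (Or.inr hi)),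
      sum_eq_zero (fun i hi => c.s2 β hβI j hj (by omega) i (Or.inr hi))]
  · rw [(c.hit hαI (Or.inl (nb_sub hj)) (by omega)).2,
      (c.hit hβI (Or.inl (nb_sub hj)) (by omega)).2]

open scoped Classical in
theorem Cf.ks [Fintype σ] (c : Cf I S A B) {B' : Finset σ} (hB' : B' ⊆ B) (hne : B'.Nonempty)
    (hF : Module.finrank ℚ
      (VK (keep I B B') (S ∪ nb I A B') ⊓ swdZ B : Submodule ℚ (σ → ℚ)) ≤ S.card)
    (hN : B'.card ≤ (nb I A B').card) : KS (keep I B B') (S ∪ nb I A B') := by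
  refine ⟨c.stab hB' hne, ?_⟩
  have hdis : Disjoint S (nb I A B') := Finset.disjoint_of_subset_right nb_sub c.SA
  rw [card_union_of_disjoint hdis]
  have h1 := swd_A (VK (keep I B B') (S ∪ nb I A B')) B B' hne hB' (swd_VK (c.gen B'))
  omega

open scoped Classical in
theorem swd_conn {I : Finset (σ →₀ ℕ)} {P Q K : Finset σ} (b : Blk I P Q) (hQ : Q ⊆ K)
    {p₀ : σ} (hp₀ : p₀ ∈ P) : ∀ p ∈ P, ∃ v ∈ VK I K, ∀ i ∈ P,
      v i = (if i = p then (1 : ℚ) else 0) - (if i = p₀ then (1 : ℚ) else 0) := by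
  have hhit : ∀ α ∈ I, ∀ j, j ∈ P ∨ j ∈ Q → α j ≠ 0 → ∑ j ∈ P, α j = 1 ∧ ∑ j ∈ Q, α j = 1 := by
    intro α hα j hj h
    rcases b.once α hα with h1 | h1
    · exact h1
    · exact absurd (h1 j hj) h
  have hval : ∀ α ∈ I, ∀ p ∈ P, α p = 1 → ∀ i ∈ P, (α i : ℚ) = if i = p then (1 : ℚ) else 0 := by
    intro α hα p hp h1 i hi
    by_cases hip : i = p
    · rw [if_pos hip, hip, h1]
      norm_num
    · rw [if_neg hip, swd_uniq (hhit α hα p (Or.inl hp) (by omega)).1.le hi hp hip (by omega)]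
      norm_num
  obtain ⟨R, hR⟩ : ∃ R : σ → Prop, R = fun p => ∃ v ∈ VK I K, ∀ i ∈ P,
      v i = (if i = p then (1 : ℚ) else 0) - (if i = p₀ then (1 : ℚ) else 0) := ⟨_, rfl⟩
  have hR0 : R p₀ := by
    rw [hR]
    exact ⟨0, Submodule.zero_mem _, fun i _ => by rw [sub_self]; rfl⟩
  have hstep : ∀ q ∈ Q, ∀ α ∈ I, ∀ β ∈ I, ∀ p ∈ P, ∀ p' ∈ P, α q = 1 → β q = 1 → α p = 1 →
      β p' = 1 → R p' → R p := by
    intro q hq α hα β hβ p hp p' hp' h1 h2 h3 h4 h5
    rw [hR] at h5 ⊢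
    obtain ⟨v, hv, hvi⟩ := h5
    refine ⟨(fun i => (α i : ℚ) - (β i : ℚ)) + v, Submodule.add_mem _ ?_ hv, ?_⟩
    · unfold VK
      exact Submodule.subset_span ⟨q, hQ hq, α, hα, β, hβ, h1, h2, rfl⟩
    · intro i hi
      rw [Pi.add_apply, hvi i hi, hval α hα p hp h3 i hi, hval β hβ p' hp' h4 i hi]
      ring
  have hclaim : ∀ q ∈ Q, (∃ p ∈ P, R p ∧ ∃ β ∈ I, β q = 1 ∧ β p = 1) →
      ∀ p ∈ P, (∃ α ∈ I, α q = 1 ∧ α p = 1) → R p := by
    rintro q hq ⟨p', hp', hRp, β, hβ, h2, h4⟩ p hp ⟨α, hα, h1, h3⟩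
    exact hstep q hq α hα β hβ p hp p' hp' h1 h2 h3 h4 hRp
  obtain ⟨Q', hQ'⟩ : ∃ Q' : Finset σ,
      Q' = Q.filter (fun q => ∀ p ∈ P, (∃ α ∈ I, α q = 1 ∧ α p = 1) → R p) := ⟨_, rfl⟩
  have hall : ∀ p ∈ P, ∃ α ∈ I, α p = 1 ∧ ∃ q ∈ Q, α q = 1 := by
    intro p hp
    obtain ⟨α, hα, h1⟩ := b.occP p hp
    obtain ⟨q, hq, hq1⟩ := swd_one (hhit α hα p (Or.inl hp) (by omega)).2
    exact ⟨α, hα, h1, q, hq, hq1⟩
  have hQQ : Q' = Q := by
    by_contra hne
    have hsub : Q' ⊆ Q := by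
      rw [hQ']
      exact filter_subset _ _
    have hnon : Q'.Nonempty := by
      obtain ⟨α, hα, h1, q, hq, hq1⟩ := hall p₀ hp₀
      refine ⟨q, ?_⟩
      rw [hQ', mem_filter]
      exact ⟨hq, hclaim q hq ⟨p₀, hp₀, hR0, α, hα, hq1, h1⟩⟩
    obtain ⟨p, hp, α, hα, β, hβ, h1, h2, ⟨q, hq, hq1⟩, q', hq', hq'n, hq'1⟩ :=
      b.conn Q' hsub hnon hne
    have hRp : R p := by
      rw [hQ', mem_filter] at hq
      exact hq.2 p hp ⟨α, hα, hq1, h1⟩
    apply hq'n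
    rw [hQ', mem_filter]
    exact ⟨hq', hclaim q' hq' ⟨p, hp, hRp, β, hβ, hq'1, h2⟩⟩
  intro p hp
  obtain ⟨α, hα, h1, q, hq, hq1⟩ := hall p hp
  rw [← hQQ, hQ', mem_filter] at hq
  have h3 := hq.2 p hp ⟨α, hα, hq1, h1⟩
  rw [hR] at h3
  exact h3

end vk

open scoped Classical in
theorem swd (h : VkrStmt) : SwdStmt := by
  intro σ _ I S P Q hc hSQ hPK hb
  obtain ⟨⟨hstab, hweak⟩, hcirc⟩ := hc
  have hSP : Disjoint S P := (Finset.disjoint_of_subset_right subset_union_left hPK).symm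
  have hPQ : Disjoint P Q := Finset.disjoint_of_subset_right subset_union_right hPK
  have hcard : (S ∪ Q).card = S.card + Q.card := card_union_of_disjoint hSQ
  -- the monomials with a variable of `S`
  have hs2 : ∀ α ∈ I, ∀ j ∈ S, α j ≠ 0 → ∀ i, i ∈ P ∨ i ∈ Q → α i = 0 := by
    intro α hα j hj hj0
    have hQ0 : ∀ i ∈ Q, α i = 0 := by
      intro i hi
      refine swd_uniq (hstab.2.1 α hα) (mem_union_right _ hi) (mem_union_left _ hj) ?_ hj0
      rintro rfl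
      exact Finset.disjoint_left.1 hSQ hj hi
    rcases hb.once α hα with ⟨_, h2⟩ | h2
    · rw [sum_eq_zero hQ0] at h2
      exact absurd h2 (by norm_num)
    · exact h2
  have hs1 : ∀ α ∈ I, ∑ j ∈ S, α j ≤ 1 := fun α hα =>
    (sum_le_sum_of_subset subset_union_left).trans (hstab.2.1 α hα)
  have hso : ∀ j ∈ S, ∃ α ∈ I, α j = 1 := fun j hj => hstab.2.2 j (mem_union_left _ hj)
  have c1 : Cf I S P Q := ⟨hSP, hs1, hs2, hso, hb.once, hb.occQ⟩
  have c2 : Cf I S Q P := ⟨hSQ, hs1, fun α hα j hj hj0 i hi => hs2 α hα j hj hj0 i hi.symm, hso,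
    fun α hα => (hb.once α hα).imp And.symm (fun h3 j hj => h3 j hj.symm), hb.occP⟩
  -- (i)
  obtain ⟨p₀, hp₀⟩ := hb.ne
  have hF : Module.finrank ℚ (VK I (S ∪ Q) ⊓ swdZ P : Submodule ℚ (σ → ℚ)) ≤ S.card := by
    have h1 := swd_B (VK I (S ∪ Q)) P p₀ hp₀ (swd_conn hb subset_union_right hp₀)
    have h2 := hb.card
    rw [hcard] at hweak
    omega
  have hFle : ∀ U : Submodule ℚ (σ → ℚ), U ≤ VK I (S ∪ Q) ⊓ swdZ P →
      Module.finrank ℚ U ≤ S.card := fun U hU => (Submodule.finrank_mono hU).trans hF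
  -- neighbours of all of `Q`
  have hnbQ : nb I P Q = P := by
    refine Finset.Subset.antisymm nb_sub ?_
    intro p hp
    obtain ⟨α, hα, h1⟩ := hb.occP p hp
    obtain ⟨q, hq, hq1⟩ := swd_one (c1.hit hα (Or.inl hp) (by omega)).2
    exact mem_nb.2 ⟨hp, α, hα, h1, q, hq, hq1⟩
  -- (ii)
  have hii : ∀ Q' ⊆ Q, Q'.card ≤ (nb I P Q').card := by
    intro Q' hQ'
    rcases Q'.eq_empty_or_nonempty with rfl | hne
    · simp
    by_cases hQQ : Q' = Q
    · rw [hQQ, hnbQ, hb.card]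
    have hdis : Disjoint S Q' := Finset.disjoint_of_subset_right hQ' hSQ
    have hsub : S ∪ Q' ⊆ S ∪ Q := union_subset_union_right hQ'
    have hneq : S ∪ Q' ≠ S ∪ Q := by
      intro heq
      have h1 := congrArg Finset.card heq
      rw [card_union_of_disjoint hdis, hcard] at h1
      exact hQQ (Finset.eq_of_subset_of_card_le hQ' (by omega))
    have h1 := hcirc (S ∪ Q') hsub (hne.mono subset_union_right) hneq
    rw [card_union_of_disjoint hdis] at h1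
    have h2 := swd_A (VK I (S ∪ Q')) P (nb I P Q') (c1.nb_ne hQ' hne) nb_sub (swd_VK (by
      intro j hj α hα β hβ h3 h4
      rcases mem_union.1 hj with hj | hj
      · have a0 := c1.s2 α hα j hj (by omega)
        have b0 := c1.s2 β hβ j hj (by omega)
        refine ⟨fun i hi _ => by rw [a0 i (Or.inl hi), b0 i (Or.inl hi)], ?_⟩
        rw [sum_eq_zero (fun i hi => a0 i (Or.inl hi)), sum_eq_zero (fun i hi => b0 i (Or.inl hi))]
      · have a1 := (c1.hit hα (Or.inr (hQ' hj)) (by omega)).1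
        have b1 := (c1.hit hβ (Or.inr (hQ' hj)) (by omega)).1
        refine ⟨fun i hi hi' => ?_, by rw [a1, b1]⟩
        have key : ∀ γ ∈ I, γ j = 1 → ∑ j ∈ P, γ j = 1 → γ i = 0 := by
          intro γ hγ hγj hγs
          by_contra hγ0
          exact hi' (mem_nb.2 ⟨hi, γ, hγ, swd_val hγs hi hγ0, j, hj, hγj⟩)
        rw [key α hα h3 a1, key β hβ h4 b1]))
    have h5 : Module.finrank ℚ (VK I (S ∪ Q') ⊓ swdZ P : Submodule ℚ (σ → ℚ)) ≤ S.card :=
      hFle _ (inf_le_inf_right _ (swd_mono (Finset.Subset.refl I) hsub))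
    omega
  -- (iii), (iv)
  have hiii : ∀ Q' ⊆ Q, Q'.Nonempty → KS (keep I Q Q') (S ∪ nb I P Q') := by
    intro Q' hQ' hne
    refine c1.ks hQ' hne (hFle _ ?_) (hii Q' hQ')
    rintro v ⟨hv1, hv2⟩
    have hvQ := (swd_memZ Q v).1 hv2
    obtain ⟨t, ht1, ht2, ht3⟩ := (h σ (keep I Q Q') (S ∪ nb I P Q') (c1.stab hQ' hne) v).1 hv1
    have hkeep : keep I Q Q' ⊆ I := fun α hα => (mem_keep'.1 hα).1
    have hsum : ∀ i, v i = ∑ α ∈ I, (if α ∈ keep I Q Q' then t α else 0) * (α i : ℚ) := by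
      intro i
      rw [ht3 i, ← Finset.sum_subset hkeep]
      · apply Finset.sum_congr rfl
        intro α hα
        rw [if_pos hα]
      · intro α _ hα
        rw [if_neg hα, zero_mul]
    have hvP : ∀ i ∈ P, v i = 0 := by
      intro i hi
      by_cases hin : i ∈ nb I P Q'
      · rw [ht3 i]
        exact ht2 i (mem_union_right _ hin)
      · rw [ht3 i]
        apply Finset.sum_eq_zero
        intro α hα
        obtain ⟨hαI, hα0⟩ := mem_keep'.1 hα
        have h0 : α i = 0 := by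
          by_contra hne0
          have hh := c1.hit hαI (Or.inl hi) hne0
          obtain ⟨q, hq, hq1⟩ := swd_one hh.2
          apply hin
          refine mem_nb.2 ⟨hi, α, hαI, swd_val hh.1 hi hne0, q, ?_, hq1⟩
          by_contra hq'
          have := hα0 q hq hq'
          omega
        rw [h0, Nat.cast_zero, mul_zero]
    refine ⟨?_, (swd_memZ P v).2 hvP⟩
    refine (h σ I (S ∪ Q) hstab v).2 ⟨fun α => if α ∈ keep I Q Q' then t α else 0, ?_, ?_, hsum⟩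
    · intro α hα h0
      by_cases hαk : α ∈ keep I Q Q'
      · beta_reduce
        rw [if_pos hαk]
        apply ht1 α hαk
        intro j hj
        rcases mem_union.1 hj with hj | hj
        · exact h0 j (mem_union_left _ hj)
        · by_contra hj0
          have hh := c1.hit hα (Or.inl (nb_sub hj)) hj0
          obtain ⟨q, hq, hq1⟩ := swd_one hh.2
          have := h0 q (mem_union_right _ hq)
          omega
      · beta_reduce
        rw [if_neg hαk]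
    · intro j hj
      rw [← hsum j]
      rcases mem_union.1 hj with hj | hj
      · rw [ht3 j]
        exact ht2 j (mem_union_left _ hj)
      · exact hvQ j hj
  refine ⟨?_, ?_, ?_⟩
  · intro Q' hQ' hne _
    exact hiii Q' hQ' hne
  · have hQne : Q.Nonempty := by
      rw [← card_pos, ← hb.card, card_pos]
      exact ⟨p₀, hp₀⟩
    have h1 := hiii Q (Finset.Subset.refl Q) hQne
    have hk : keep I Q Q = I := by
      ext α
      rw [mem_keep']
      exact ⟨fun hx => hx.1, fun hx => ⟨hx, fun j hj hj' => absurd hj hj'⟩⟩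
    rw [hk, hnbQ] at h1
    exact h1
  · intro P' hP' hne _
    have hN : P'.card ≤ (nb I Q P').card := by
      have h1 := hii (Q \ nb I Q P') sdiff_subset
      have h2 : nb I P (Q \ nb I Q P') ⊆ P \ P' := by
        intro p hp
        obtain ⟨hpP, α, hα, hα1, q, hq, hq1⟩ := mem_nb.1 hp
        rw [mem_sdiff] at hq ⊢
        refine ⟨hpP, fun hpP' => hq.2 (mem_nb.2 ⟨hq.1, α, hα, hq1, p, hpP', hα1⟩)⟩
      have h3 := card_le_card h2
      rw [card_sdiff_of_subset hP'] at h3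
      rw [card_sdiff_of_subset (nb_sub (I := I) (A := Q) (B' := P'))] at h1
      have h4 := card_le_card hP'
      have h5 := card_le_card (nb_sub (I := I) (A := Q) (B' := P'))
      have h6 := hb.card
      omega
    refine c2.ks hP' hne (hFle _ (inf_le_inf_right _ (swd_mono ?_ ?_))) hN
    · exact fun α hα => (mem_keep'.1 hα).1
    · exact union_subset_union_right nb_sub

end Pool.Agent.GEN.H51
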