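import Pool.Agent.GEN.StmtsR

/-!
Squad GEN (MP_b48657_ag): row TRN, the truncated inverse.
-/

set_option autoImplicit false

namespace Pool.Agent.GEN.H51

open Finset Pool.Agent.GEN

/-- TRN. -/
theorem trn : TrnStmt := by
  intro E _ I k hI d c e₀ hed hu hc
  obtain ⟨m, hm⟩ : ∃ m, d + 1 = e₀ + (m + 1) := ⟨d - e₀, by omega⟩
  set U₀ : Polynomial E := ∑ j ∈ range (m + 1), Polynomial.C (c (e₀ + j)) * Polynomial.X ^ j
    with hU
  set n : Polynomial E := ∑ e ∈ range e₀, Polynomial.C (c e) * Polynomial.X ^ e with hn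
  have hp : ∑ e ∈ range (d + 1), Polynomial.C (c e) * Polynomial.X ^ e =
      Polynomial.X ^ e₀ * U₀ - -n := by
    rw [hm, Finset.sum_range_add, ← hn, sub_neg_eq_add, add_comm, hU, Finset.mul_sum]
    congr 1
    refine Finset.sum_congr rfl fun j _ => ?_
    rw [pow_add]; ring
  have hnI : n ∈ Ideal.map (Polynomial.C : E →+* Polynomial E) I := by
    rw [hn]
    refine Ideal.sum_mem _ fun e he => ?_
    exact Ideal.mul_mem_right _ _ (Ideal.mem_map_of_mem _ (hc e (Finset.mem_range.1 he)))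
  have hnk : n ^ k = 0 := by
    have h1 := Ideal.pow_mem_pow hnI k
    rw [← Ideal.map_pow, hI, Ideal.map_bot] at h1
    exact (Submodule.mem_bot _).1 h1
  have hU0 : U₀.coeff 0 = c e₀ := by
    rw [hU, Polynomial.finsetSum_coeff, Finset.sum_eq_single 0]
    · simp
    · intro j _ hj
      simp [Ne.symm hj]
    · intro h
      exact absurd (Finset.mem_range.2 (Nat.succ_pos m)) h
  refine ⟨∑ i ∈ range k, (Polynomial.X ^ e₀ * U₀) ^ i * (-n) ^ (k - 1 - i), U₀ ^ k, ?_, ?_⟩
  · have h1 : (U₀ ^ k).coeff 0 = (c e₀) ^ k := by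
      rw [Polynomial.coeff_zero_eq_eval_zero, Polynomial.eval_pow,
        ← Polynomial.coeff_zero_eq_eval_zero, hU0]
    rw [h1]
    exact hu.pow k
  · rw [hp, (Commute.all _ _).mul_geom_sum₂ k, neg_pow, hnk, mul_zero, sub_zero, mul_pow, ← pow_mul,
      mul_comm e₀ k]

end Pool.Agent.GEN.H51
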